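import Pool.Agent.H954Z.FT.St

set_option autoImplicit false

namespace Pool.Agent.H751Z.FT

open Pool.Agent.H954Z.FT Filter Topology IsLocalRing

theorem len_flat (R T : Type) [CommRing R] [CommRing T] [IsLocalRing R] [IsLocalRing T]
    [Algebra R T] [IsLocalHom (algebraMap R T)] [Module.Flat R T]
    (h : maximalIdeal T = (maximalIdeal R).map (algebraMap R T)) (I : Ideal R) :
    Module.length T (T ⧸ I.map (algebraMap R T)) = Module.length R (R ⧸ I) := by
  rw [(Algebra.TensorProduct.quotIdealMapEquivTensorQuot T I).toLinearEquiv.length_eq,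
    IsLocalRing.length_baseChange R T (R ⧸ I), ← h]
  have : IsSimpleModule T (T ⧸ maximalIdeal T) :=
    isSimpleModule_iff_quot_maximal.2 ⟨_, inferInstance, ⟨LinearEquiv.refl _ _⟩⟩
  rw [Module.length_eq_one T (T ⧸ maximalIdeal T), mul_one]

theorem len_res (A T : Type) [CommRing A] [CommRing T] [IsLocalRing A] [IsLocalRing T]
    [Algebra A T] [IsLocalHom (algebraMap A T)]
    (h : ∀ z : ResidueField T, ∃ a : A, residue T (algebraMap A T a) = z) (I : Ideal T) :
    Module.length A (T ⧸ I) = Module.length T (T ⧸ I) := by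
  rw [IsLocalRing.length_restrictScalars A T (T ⧸ I)]
  have hs : Function.Surjective (algebraMap (ResidueField A) (ResidueField T)) := by
    intro z
    obtain ⟨a, rfl⟩ := h z
    exact ⟨residue A a, rfl⟩
  rw [Module.length_eq_of_surjective (M := ResidueField T) hs,
    Module.length_eq_one (ResidueField T) (ResidueField T), mul_one]

theorem len_fin (R : Type) [CommRing R] [IsLocalRing R] [IsNoetherianRing R] (I : Ideal R)
    (hI : I.radical = maximalIdeal R) (n : ℕ) : Module.length R (R ⧸ I ^ n) ≠ ⊤ := by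
  rcases Nat.eq_zero_or_pos n with rfl | hn
  · rw [pow_zero, Ideal.one_eq_top, Module.length_eq_zero]
    simp
  have hle : I ≤ maximalIdeal R := hI ▸ Ideal.le_radical
  have hmin : maximalIdeal R ∈ (I ^ n).minimalPrimes := by
    refine ⟨⟨inferInstance, (Ideal.pow_le_self hn.ne').trans hle⟩, fun q hq _ => ?_⟩
    have := hq.1
    rw [← hI]
    exact (Ideal.IsPrime.radical_le_iff hq.1).2 (Ideal.IsPrime.le_of_pow_le hq.2)
  have := IsLocalRing.quotient_artinian_of_mem_minimalPrimes_of_isLocalRing (I ^ n) hmin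
  have : IsArtinian R (R ⧸ I ^ n) :=
    isArtinian_of_surjective_algebraMap (R := R ⧸ I ^ n) Ideal.Quotient.mk_surjective
  exact Module.length_ne_top

theorem upper_le {d : ℕ} {ρ e : ℝ} {len : ℕ → ℕ∞} (h : Upper d ρ len)
    (ht : Tendsto (fun n : ℕ => (d.factorial : ℝ) * ((len n).toNat : ℝ) / (n : ℝ) ^ d) atTop
      (𝓝 e)) : e ≤ ρ := by
  refine le_of_forall_pos_le_add fun ε hε => le_of_tendsto ht ?_
  filter_upwards [h ε hε, eventually_gt_atTop 0] with n ⟨m, h1, h2⟩ hn
  have h3 : ((len n).toNat : ℝ) ≤ m := by exact_mod_cast ENat.toNat_le_of_le_natCast h1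
  rw [div_le_iff₀ (by positivity)]
  exact le_trans (by gcongr) h2

theorem le_lower {d : ℕ} {ρ e : ℝ} {len : ℕ → ℕ∞} (h : Lower d ρ len) (hf : ∀ n, len n ≠ ⊤)
    (ht : Tendsto (fun n : ℕ => (d.factorial : ℝ) * ((len n).toNat : ℝ) / (n : ℝ) ^ d) atTop
      (𝓝 e)) : ρ ≤ e := by
  refine le_of_forall_pos_le_add fun ε hε => ?_
  rw [← sub_le_iff_le_add]
  refine ge_of_tendsto ht ?_
  filter_upwards [h ε hε, eventually_gt_atTop 0] with n ⟨m, h1, h2⟩ hn
  have h3 : (m : ℝ) ≤ ((len n).toNat : ℝ) := by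
    have := ENat.toNat_le_toNat h1 (hf n)
    exact_mod_cast this
  rw [le_div_iff₀ (by positivity)]
  exact h2.trans (by gcongr)

theorem box_map {d : ℕ} {k T : Type} [Field k] [CommRing T] (ψ : PS d k →+* T) (y : Fin d → T)
    (h : ∀ i, ψ (MvPowerSeries.X i) = y i) (q : ℕ) :
    (box d k q).map ψ = Ideal.span (Set.range fun i => y i ^ q) := by
  rw [box, Ideal.map_span, ← Set.range_comp]
  congr 2
  funext i
  simp [h]

theorem thm_main : S_coeff → S_fin → S_upper → S_lower → S_main := by
  intro hco hfin hup hlo R _ _ _ p _ _ d _ x hx hrad 𝔞 h𝔞 c eJ ea hc hJ ha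
  rcases Nat.eq_zero_or_pos d with rfl | hd
  · have h0 : Ideal.span (Set.range x) = ⊥ := by simp [Set.range_eq_empty]
    rw [h0] at hrad hJ
    obtain ⟨k, hk⟩ := Ideal.exists_pow_le_of_le_radical_of_fg_radical (I := 𝔞) (J := ⊥)
      (by rw [hrad, ← h𝔞]; exact Ideal.le_radical) (Ideal.fg_of_isNoetherianRing _)
    have : eJ = ea := by
      refine tendsto_nhds_unique (hJ.congr' ?_) ha
      filter_upwards [eventually_ge_atTop k, eventually_gt_atTop 0] with n h1 h2
      have e1 : (⊥ : Ideal R) ^ n = ⊥ := le_bot_iff.1 (Ideal.pow_le_self h2.ne')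
      have e2 : 𝔞 ^ n = ⊥ := le_bot_iff.1 ((Ideal.pow_le_pow_right h1).trans hk)
      rw [e1, e2]
    simp [this]
  have hp : p.Prime := Fact.out
  let T := AdicCompletion (maximalIdeal R) R
  have hmT : maximalIdeal T = (maximalIdeal R).map (algebraMap R T) :=
    AdicCompletion.maximalIdeal_eq_map
  have hpT : (p : T) = 0 := by
    rw [← map_natCast (algebraMap R T), CharP.cast_eq_zero, map_zero]
  have : CharP T p := (CharP.charP_iff_prime_eq_zero hp).2 hpT
  have : CharP (ResidueField T) p := (CharP.charP_iff_prime_eq_zero hp).2 (by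
    rw [← map_natCast (residue T), hpT, map_zero])
  obtain ⟨φ, hφ⟩ := hco T p
  have hmap : ∀ q : ℕ, (Ideal.span (Set.range fun i => x i ^ q)).map (algebraMap R T) =
      Ideal.span (Set.range fun i => algebraMap R T (x i) ^ q) := by
    intro q
    rw [Ideal.map_span, ← Set.range_comp]
    exact congrArg (fun f => Ideal.span (Set.range f)) (funext fun i => map_pow _ _ _)
  have hmap1 : (Ideal.span (Set.range x)).map (algebraMap R T) =
      Ideal.span (Set.range fun i => algebraMap R T (x i)) := by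
    simpa using hmap 1
  obtain ⟨ψ, hψX, hψC, hψf⟩ := hfin T (ResidueField T) φ d (fun i => algebraMap R T (x i))
    (by rw [hmT]; exact (Ideal.fg_of_isNoetherianRing _).map _)
    (fun a => ⟨a, hφ a⟩) (fun i => by rw [hmT]; exact Ideal.mem_map_of_mem _ (hx i)) (by
      obtain ⟨s, hs⟩ := (Ideal.span (Set.range x)).exists_radical_pow_le_of_fg
        (Ideal.fg_of_isNoetherianRing _)
      refine ⟨s, ?_⟩
      rw [hrad] at hs
      rw [hmT, ← Ideal.map_pow, ← hmap1]
      exact Ideal.map_mono hs)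
  let _ : Algebra (PS d (ResidueField T)) T := ψ.toAlgebra
  have hψ : algebraMap (PS d (ResidueField T)) T = ψ := rfl
  have : Module.Finite (PS d (ResidueField T)) T := hψf
  have : IsLocalHom (algebraMap (PS d (ResidueField T)) T) := by
    refine ((IsLocalRing.local_hom_TFAE _).out 4 0).1 ?_
    exact IsLocalRing.eq_maximalIdeal (Ideal.isMaximal_comap_of_isIntegral_of_isMaximal _)
  have hlen : ∀ I : Ideal R, Module.length (PS d (ResidueField T)) (T ⧸ I.map (algebraMap R T)) =
      Module.length R (R ⧸ I) := by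
    intro I
    rw [len_res _ T (fun z => ⟨MvPowerSeries.C z, by rw [hψ, hψC, hφ]⟩), len_flat R T hmT]
  set r : ℕ := Module.finrank (PS d (ResidueField T)) T with hr
  have hJr : eJ ≤ r := by
    refine upper_le (hup (ResidueField T) d hd T) (hJ.congr fun n => ?_)
    have e1 : (box d (ResidueField T) 1 ^ n • ⊤ : Submodule (PS d (ResidueField T)) T) =
        ((Ideal.span (Set.range x) ^ n).map (algebraMap R T)).restrictScalars
          (PS d (ResidueField T)) := by
      rw [Ideal.smul_top_eq_map, Ideal.map_pow, Ideal.map_pow, hψ, box_map ψ _ hψX, hmap1]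
      simp only [pow_one]
    rw [← hlen, e1,
      (Submodule.Quotient.restrictScalarsEquiv (PS d (ResidueField T)) _).length_eq]
  have hc0 : 0 ≤ c := ge_of_tendsto' hc fun e => by positivity
  have hkey : ∀ c' : ℝ, c < c' → eJ ≤ (c' / d) ^ d * ea := by
    intro c' hc'
    have hc'0 : 0 < c' := hc0.trans_lt hc'
    have hd' : (0 : ℝ) < d := by exact_mod_cast hd
    have h1 := hlo (ResidueField T) p d hd T (𝔞.map (algebraMap R T)) c' hc'0 (by
      intro Q
      obtain ⟨e, he1, he2⟩ := ((hc.eventually (gt_mem_nhds hc')).and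
        ((tendsto_pow_atTop_atTop_of_one_lt hp.one_lt).eventually_ge_atTop Q)).exists
      have hne : {N : ℕ | 𝔞 ^ N ≤ Ideal.span (Set.range fun i => x i ^ p ^ e)}.Nonempty := by
        refine Ideal.exists_pow_le_of_le_radical_of_fg_radical ?_ (Ideal.fg_of_isNoetherianRing _)
        refine (Ideal.le_radical.trans (h𝔞.trans hrad.symm).le).trans ?_
        rw [Ideal.radical_le_radical_iff, Ideal.span_le]
        rintro _ ⟨i, rfl⟩
        exact ⟨p ^ e, Ideal.subset_span ⟨i, rfl⟩⟩
      refine ⟨p ^ e, sInf {N : ℕ | 𝔞 ^ N ≤ Ideal.span (Set.range fun i => x i ^ p ^ e)}, he2,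
        ?_, ?_⟩
      · have hpe : (0 : ℝ) < (p : ℝ) ^ e := by
          have := hp.pos
          positivity
        rw [div_lt_iff₀ hpe] at he1
        push_cast
        exact he1.le
      · rw [hψ, box_map ψ _ hψX, ← hmap, ← Ideal.map_pow]
        exact Ideal.map_mono (Nat.sInf_mem hne))
    have h2 : (r : ℝ) * (d / c') ^ d ≤ ea := by
      refine le_lower h1 (fun n => ?_) (ha.congr fun n => ?_)
      · rw [← Ideal.map_pow, hlen]
        exact len_fin R 𝔞 h𝔞 n
      · rw [← Ideal.map_pow, hlen]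
    have h3 : (c' / d) ^ d * ((r : ℝ) * (d / c') ^ d) = r := by
      rw [mul_left_comm, ← mul_pow]
      have : c' / d * (d / c') = 1 := by field_simp
      rw [this, one_pow, mul_one]
    calc eJ ≤ r := hJr
      _ = (c' / d) ^ d * ((r : ℝ) * (d / c') ^ d) := h3.symm
      _ ≤ (c' / d) ^ d * ea := by gcongr
  have hcont : Tendsto (fun c' : ℝ => (c' / d) ^ d * ea) (𝓝[>] c) (𝓝 ((c / d) ^ d * ea)) :=
    (Continuous.tendsto (by fun_prop) c).mono_left nhdsWithin_le_nhds
  exact ge_of_tendsto hcont (eventually_mem_nhdsWithin.mono fun c' hc' => hkey c' hc')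

end Pool.Agent.H751Z.FT
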